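import Pool.Agent.Y121.NT.Sq

/-!
# Rings spanned by two elements in products of fields
-/

namespace Pool.Agent.Y121.NT

variable {J : Type*} {L : J → Type*} [∀ a, Field (L a)] [∀ a, CharZero (L a)]

/-- Three elements of the span of two elements are linearly dependent. -/
lemma dep3 {e : Fin 2 → ∀ a, L a} {u v w : ∀ a, L a}
    (hu : ∃ q : Fin 2 → ℚ, ∀ a, u a = ∑ k, (q k : L a) * e k a)
    (hv : ∃ q : Fin 2 → ℚ, ∀ a, v a = ∑ k, (q k : L a) * e k a)
    (hw : ∃ q : Fin 2 → ℚ, ∀ a, w a = ∑ k, (q k : L a) * e k a) :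
    ∃ g0 g1 g2 : ℚ, (g0 ≠ 0 ∨ g1 ≠ 0 ∨ g2 ≠ 0) ∧
      ∀ a, (g0 : L a) * u a + g1 * v a + g2 * w a = 0 := by
  obtain ⟨q0, h0⟩ := hu
  obtain ⟨q1, h1⟩ := hv
  obtain ⟨q2, h2⟩ := hw
  let v' : Fin 3 → (Fin 2 → ℚ) := ![q0, q1, q2]
  have hv' : ¬ LinearIndependent ℚ v' := by
    intro h
    have h3 := h.fintype_card_le_finrank
    simp at h3
  obtain ⟨g, hg, i0, hi0⟩ := Fintype.not_linearIndependent_iff.1 hv'
  refine ⟨g 0, g 1, g 2, ?_, ?_⟩
  · fin_cases i0
    · exact Or.inl hi0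
    · exact Or.inr (Or.inl hi0)
    · exact Or.inr (Or.inr hi0)
  · intro a
    have e3 : ∀ k, g 0 * q0 k + g 1 * q1 k + g 2 * q2 k = 0 := by
      intro k
      have := congrFun hg k
      simpa [v', Fin.sum_univ_three] using this
    have e4 : (g 0 : L a) * u a + g 1 * v a + g 2 * w a =
        ∑ k, ((g 0 * q0 k + g 1 * q1 k + g 2 * q2 k : ℚ) : L a) * e k a := by
      rw [h0, h1, h2]
      simp only [Finset.mul_sum, ← Finset.sum_add_distrib]
      refine Finset.sum_congr rfl fun k _ => ?_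
      push_cast
      ring
    rw [e4]
    simp [e3]

/-- A ring spanned by two elements in a product of fields which contains, for each prime `p`, a
field which can be embedded into the field of `p`-adic numbers. -/
theorem signs_of_two (hp : ∀ (p : ℕ) [Fact p.Prime], ∃ a, Nonempty (L a →+* ℚ_[p]))
    {e : Fin 2 → ∀ a, L a} {E : Subring (∀ a, L a)}
    (hE : ∀ x, x ∈ E ↔ ∃ q : Fin 2 → ℚ, ∀ a, x a = ∑ k, (q k : L a) * e k a) :
    ∃ ε : J → ℤˣ, ∀ x ∈ E, ∃ α β : ℚ, ∀ a, x a = α + ((ε a : ℤ) : L a) * β := by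
  by_cases hA : ∀ x ∈ E, ∃ q : ℚ, ∀ a, x a = q
  · refine ⟨fun _ => 1, fun x hx => ?_⟩
    obtain ⟨q, hq⟩ := hA x hx
    exact ⟨q, 0, fun a => by simp [hq a]⟩
  push Not at hA
  obtain ⟨x, hx, hxq⟩ := hA
  -- a relation between `1`, `x` and `z` involves `z`
  have hrel : ∀ z ∈ E, ∃ g0 g1 g2 : ℚ, g2 ≠ 0 ∧
      ∀ a, (g0 : L a) + g1 * x a + g2 * z a = 0 := by
    intro z hz
    obtain ⟨g0, g1, g2, hne, h⟩ := dep3 ((hE 1).1 (one_mem E)) ((hE x).1 hx) ((hE z).1 hz)
    have h' : ∀ a, (g0 : L a) + g1 * x a + g2 * z a = 0 := by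
      intro a
      have := h a
      simpa using this
    refine ⟨g0, g1, g2, fun hg2 => ?_, h'⟩
    by_cases hg1 : g1 = 0
    · have hg0 : g0 ≠ 0 := by
        rcases hne with h1 | h1 | h1
        · exact h1
        · exact absurd hg1 h1
        · exact absurd hg2 h1
      obtain ⟨a, -⟩ := hxq 0
      have h3 := h' a
      rw [hg1, hg2, Rat.cast_zero, zero_mul, zero_mul, add_zero, add_zero] at h3
      exact hg0 (by exact_mod_cast h3)
    · obtain ⟨a, ha⟩ := hxq (-g0 / g1)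
      apply ha
      have h3 := h' a
      rw [hg2, Rat.cast_zero, zero_mul, add_zero] at h3
      have h4 : (g1 : L a) ≠ 0 := by exact_mod_cast hg1
      push_cast
      rw [eq_div_iff h4]
      linear_combination h3
  obtain ⟨g0, g1, g2, hg2, h⟩ := hrel (x * x) (mul_mem hx hx)
  set b : ℚ := g1 / (2 * g2) with hb
  set d : ℚ := b ^ 2 - g0 / g2 with hd
  have hsq : ∀ a, (x a + b) ^ 2 = (d : L a) := by
    intro a
    have h3 : (g0 : L a) + g1 * x a + g2 * (x a * x a) = 0 := h a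
    have h4 : (g2 : L a) ≠ 0 := by exact_mod_cast hg2
    have h5 : (2 : L a) ≠ 0 := two_ne_zero
    rw [hd, hb]
    push_cast
    field_simp
    linear_combination 4 * (g2 : L a) * h3
  obtain ⟨r, hr⟩ := isSquare_of_padic (d := d) fun p _ => by
    obtain ⟨a, ⟨f⟩⟩ := hp p
    refine ⟨f (x a + b), ?_⟩
    rw [← map_pow, hsq a, map_ratCast]
  classical
  have hcase : ∀ a, x a + b = (r : L a) ∨ x a + b = -(r : L a) := by
    intro a
    have h3 := hsq a
    rw [← hr] at h3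
    push_cast at h3
    exact sq_eq_sq_iff_eq_or_eq_neg.1 h3
  refine ⟨fun a => if x a + b = (r : L a) then 1 else -1, fun z hz => ?_⟩
  obtain ⟨g0, g1, g2, hg2, h⟩ := hrel z hz
  refine ⟨-(g0 - g1 * b) / g2, -g1 * r / g2, fun a => ?_⟩
  have h3 := h a
  have h4 : (g2 : L a) ≠ 0 := by exact_mod_cast hg2
  by_cases h5 : x a + b = (r : L a)
  · simp only [if_pos h5]
    push_cast
    field_simp
    linear_combination h3 - (g1 : L a) * h5
  · have h6 := (hcase a).resolve_left h5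
    simp only [if_neg h5]
    push_cast
    field_simp
    linear_combination h3 - (g1 : L a) * h6

end Pool.Agent.Y121.NT
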