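import Mathlib

/-!
# A rational number which is a square in all fields of `p`-adic numbers is a square
-/

namespace Pool.Agent.Y121.NT

lemma neg_one_not_sq (y : ℚ_[3]) : y ^ 2 ≠ -1 := by
  intro h
  have hn : ‖y‖ = 1 := by
    have h1 := congrArg norm h
    rw [norm_pow, norm_neg, norm_one] at h1
    exact (pow_eq_one_iff_of_nonneg (norm_nonneg _) two_ne_zero).1 h1
  let z : ℤ_[3] := ⟨y, hn.le⟩
  have hz : z ^ 2 = -1 := Subtype.ext h
  have h2 := congrArg (PadicInt.toZMod) hz
  rw [map_pow, map_neg, map_one] at h2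
  generalize PadicInt.toZMod z = w at h2
  revert h2
  revert w
  decide

theorem isSquare_of_padic {d : ℚ} (h : ∀ (p : ℕ) [Fact p.Prime], ∃ y : ℚ_[p], y ^ 2 = d) :
    ∃ r : ℚ, r ^ 2 = d := by
  rcases eq_or_ne d 0 with rfl | hd
  · exact ⟨0, by norm_num⟩
  have hden : (d.den : ℚ) ≠ 0 := by exact_mod_cast d.den_nz
  have hnum : d.num ≠ 0 := Rat.num_ne_zero.2 hd
  have hdd : d * (d.den : ℚ) ^ 2 = ((d.num * d.den : ℤ) : ℚ) := by
    have h1 := Rat.mul_den_eq_num d
    push_cast
    rw [sq, ← mul_assoc, h1]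
  set m : ℤ := d.num * d.den with hm
  have hm0 : m ≠ 0 := mul_ne_zero hnum (by exact_mod_cast d.den_nz)
  set n : ℕ := m.natAbs with hn
  have hn0 : 0 < n := Int.natAbs_pos.2 hm0
  obtain ⟨a, b, ha, hb, hab, hsq⟩ := Nat.sq_mul_squarefree_of_pos hn0
  have ha1 : a = 1 := by
    by_contra hne
    have hp : (a.minFac).Prime := Nat.minFac_prime hne
    have : Fact (a.minFac).Prime := ⟨hp⟩
    set p := a.minFac with hpdef
    have hpa : p ∣ a := Nat.minFac_dvd a
    have hva : padicValNat p a = 1 := by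
      have h1 : 1 ≤ padicValNat p a := by
        rw [← padicValNat_dvd_iff_le ha.ne', pow_one]
        exact hpa
      have h2 : ¬ 2 ≤ padicValNat p a := by
        rw [← padicValNat_dvd_iff_le ha.ne']
        intro h3
        have h4 := hsq p (by rw [← sq]; exact h3)
        exact hp.one_lt.ne' (Nat.isUnit_iff.1 h4)
      omega
    obtain ⟨y, hy⟩ := h p
    have h1 : (y * (d.den : ℚ_[p])) ^ 2 = ((m : ℤ) : ℚ_[p]) := by
      rw [mul_pow, hy]
      exact_mod_cast congrArg (fun q : ℚ => (q : ℚ_[p])) hdd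
    have h2 := congrArg Padic.valuation h1
    rw [Padic.valuation_pow, Padic.valuation_intCast, padicValInt, ← hn, ← hab,
      padicValNat.mul (pow_ne_zero 2 hb.ne') ha.ne', padicValNat.pow, hva] at h2
    push_cast at h2
    omega
  rw [ha1, mul_one] at hab
  have hcase : m = (b : ℤ) ^ 2 ∨ m = -(b : ℤ) ^ 2 := by
    rcases Int.natAbs_eq m with h1 | h1
    · left
      rw [h1, ← hn, ← hab]
      push_cast
      ring
    · right
      rw [h1, ← hn, ← hab]
      push_cast
      ring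
  have hbQ : (b : ℚ) ≠ 0 := by exact_mod_cast hb.ne'
  rcases hcase with h1 | h1
  · refine ⟨b / d.den, ?_⟩
    rw [div_pow, div_eq_iff (pow_ne_zero 2 hden), hdd, h1]
    push_cast
    ring
  · exfalso
    obtain ⟨y, hy⟩ := h 3
    have h2 : d = -((b : ℚ) / d.den) ^ 2 := by
      rw [div_pow, ← neg_div, eq_div_iff (pow_ne_zero 2 hden), hdd, h1]
      push_cast
      ring
    have hb3 : ((b : ℚ) / d.den : ℚ) ≠ 0 := div_ne_zero hbQ hden
    have hb3' : (((b : ℚ) / d.den : ℚ) : ℚ_[3]) ≠ 0 := by exact_mod_cast hb3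
    apply neg_one_not_sq (y / (((b : ℚ) / d.den : ℚ) : ℚ_[3]))
    rw [div_pow, hy, div_eq_iff (pow_ne_zero 2 hb3')]
    conv_lhs => rw [h2]
    push_cast
    ring

end Pool.Agent.Y121.NT
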